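import Mathlib
import Pool.Agent.helper33.ChebDefs
import Pool.Agent.helper33.Positive
import Pool.Agent.helper33.Negative

set_option autoImplicit false

open Pool.Agent.helper33.Cheb

namespace Pool.Agent.Results.MP_beddab_an.Answer

universe u v

/-- Let `𝕜` be `ℝ` or `ℂ`. For every separable Banach space `E` over `𝕜` and every `n ≤ dim E` the
dual `E*` contains a weak-star closed Chebyshev subspace of codimension `n`. On the other hand,
there is a separable infinite-dimensional (incomplete) normed space `E` over `𝕜` such that, for no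
`n ≥ 1`, the dual `E*` contains a weak-star closed Chebyshev subspace of codimension `n` (the
finitely supported sequences with the `ℓ¹` norm). -/
theorem result (𝕜 : Type u) [RCLike 𝕜] :
    (∀ (E : Type v) [NormedAddCommGroup E] [NormedSpace 𝕜 E] [CompleteSpace E]
      [TopologicalSpace.SeparableSpace E] (n : ℕ), (n : Cardinal) ≤ Module.rank 𝕜 E →
        HasChebyshev 𝕜 E n) ∧
    ∃ (E : Type u) (_ : NormedAddCommGroup E) (_ : NormedSpace 𝕜 E),
      TopologicalSpace.SeparableSpace E ∧ Cardinal.aleph0 ≤ Module.rank 𝕜 E ∧
        ∀ n : ℕ, 1 ≤ n → ¬ HasChebyshev 𝕜 E n := by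
  refine ⟨?_, finSupp 𝕜, inferInstance, inferInstance, inferInstance, rank_finSupp 𝕜,
    fun n hn => finSupp_not_hasChebyshev 𝕜 hn⟩
  intro E _ _ _ _ n hn
  exact hasChebyshev_of_complete hn

end Pool.Agent.Results.MP_beddab_an.Answer
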