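import Mathlib
import Pool.Agent.helper33.ChebDefs
import Pool.Agent.helper33.Positive

set_option autoImplicit false

open Pool.Agent.helper33.Cheb

namespace Pool.Agent.Results.MP_beddab_an.BanachGeneric

/-- Let `E` be a separable Banach space over `ℝ` or `ℂ` and `n ≤ dim E`. There is a dense `Gδ` set
of `n`-tuples `(x₁, ..., xₙ)` of vectors of `E` such that `x₁, ..., xₙ` are linearly independent and
`{f ∈ E* : f (x₁) = ... = f (xₙ) = 0}` is a weak-star closed Chebyshev subspace of `E*` of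
codimension `n`. -/
theorem result {𝕜 : Type*} [RCLike 𝕜] {E : Type*} [NormedAddCommGroup E] [NormedSpace 𝕜 E]
    [CompleteSpace E] [TopologicalSpace.SeparableSpace E] (n : ℕ)
    (hn : (n : Cardinal) ≤ Module.rank 𝕜 E) :
    ∃ T : Set (Fin n → E), IsGδ T ∧ Dense T ∧ ∀ x ∈ T, LinearIndependent 𝕜 x ∧
      IsClosed (WeakDual.toStrongDual ⁻¹' ((annih x : Submodule 𝕜 (StrongDual 𝕜 E)) :
        Set (StrongDual 𝕜 E)) : Set (WeakDual 𝕜 E)) ∧
      Module.rank 𝕜 (StrongDual 𝕜 E ⧸ (annih x : Submodule 𝕜 (StrongDual 𝕜 E))) = n ∧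
      ∀ f : StrongDual 𝕜 E, ∃! g : StrongDual 𝕜 E,
        g ∈ (annih x : Submodule 𝕜 (StrongDual 𝕜 E)) ∧
        ‖f - g‖ = Metric.infDist f ((annih x : Submodule 𝕜 (StrongDual 𝕜 E)) :
          Set (StrongDual 𝕜 E)) := by
  obtain ⟨T, hT1, hT2, hT3⟩ := generic_chebyshev (𝕜 := 𝕜) (E := E) hn
  exact ⟨T, hT1, hT2, fun x hx => ⟨(hT3 x hx).1, annih_closed x, annih_rank (hT3 x hx).1,
    (hT3 x hx).2⟩⟩

end Pool.Agent.Results.MP_beddab_an.BanachGeneric
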