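import Mathlib
import Pool.Agent.helper33.ChebDefs
import Pool.Agent.helper33.Negative

set_option autoImplicit false

open Pool.Agent.helper33.Cheb

namespace Pool.Agent.Results.MP_beddab_an.IncompleteExample

universe u

/-- There is a separable infinite-dimensional normed space `E` over `𝕜` (`ℝ` or `ℂ`) such that for
no `n ≥ 1` is there a weak-star closed subspace of `E*` of codimension `n` which is a Chebyshev
subspace: the space of the finitely supported sequences with the `ℓ¹` norm. -/
theorem result (𝕜 : Type u) [RCLike 𝕜] :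
    ∃ (E : Type u) (_ : NormedAddCommGroup E) (_ : NormedSpace 𝕜 E),
      TopologicalSpace.SeparableSpace E ∧ Cardinal.aleph0 ≤ Module.rank 𝕜 E ∧
        ∀ n : ℕ, 1 ≤ n → ¬ HasChebyshev 𝕜 E n :=
  ⟨finSupp 𝕜, inferInstance, inferInstance, inferInstance, rank_finSupp 𝕜,
    fun _ hn => finSupp_not_hasChebyshev 𝕜 hn⟩

end Pool.Agent.Results.MP_beddab_an.IncompleteExample
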